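import Pool.Agent.H35.CL.Defs

/-!
# Dag-like lifting with one symmetric gadget of polynomial size: definitions (helper87, /team-store/H87_LIFT.md)

`ι` is the set of base variables, `α` the set of letters, `g j (x j) (y j)` the colour of the variable `j`.
-/

namespace Pool.Agent.H87.DL

open Finset Pool.Agent.H35.CL

variable {ι α : Type} [Fintype ι] [DecidableEq ι] [Fintype α] [DecidableEq α]

/-- The sign of a colour. -/
def sg (b : Bool) : ℝ := if b then -1 else 1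

/-- The product of the signs of the colours of `(x, y)` over `K`. -/
def chi (g : ι → α → α → Bool) (K : Finset ι) (x y : ι → α) : ℝ := ∏ j ∈ K, sg (g j (x j) (y j))

/-- The points of `P` that agree with `β` on `E`. -/
def cyl (P : Finset (ι → α)) (E : Finset ι) (β : ι → α) : Finset (ι → α) := P.filter (fun x => ∀ j ∈ E, x j = β j)

/-- `A` is nonempty and at most a fraction `h ^ (-#E)` of its points agree with `β` on `E`, for all `E ⊆ V` and `β`. -/
def Dense (h : ℕ) (V : Finset ι) (A : Finset (ι → α)) : Prop :=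
  A.Nonempty ∧ ∀ E ⊆ V, ∀ β : ι → α, h ^ E.card * (cyl A E β).card ≤ A.card

/-- Property (W) of the gadgets: the products of `p` columns are almost balanced if some column occurs exactly once. -/
def Wp (p : ℕ) (Δ : ℝ) (g : ι → α → α → Bool) : Prop :=
  ∀ (j : ι) (b : Fin p → α) (i₀ : Fin p), (∀ i, i ≠ i₀ → b i ≠ b i₀) → |∑ a, ∏ i, sg (g j a (b i))| ≤ Δ

/-- The tuples on `K`, represented by the functions that are equal to `a₀` outside `K`. -/
def Rep (a₀ : α) (K : Finset ι) : Finset (ι → α) := univ.filter (fun y => ∀ j ∉ K, y j = a₀)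

/-- The tuple `y` on `K` is irregular for `P` (relative to the set `F` of coordinates). -/
def Irr (g : ι → α → α → Bool) (h' : ℕ) (F : Finset ι) (P : Finset (ι → α)) (K : Finset ι) (y : ι → α) : Prop :=
  ∃ E : Finset ι, Disjoint E (F ∪ K) ∧ ∃ β : ι → α,
    (P.card : ℝ) / ((h' : ℝ) ^ E.card * (4 * Fintype.card ι) ^ K.card) < |∑ x ∈ cyl P E β, chi g K x y|

/-- The tuple `y` on `J` is regular for `P`. -/
def Reg (g : ι → α → α → Bool) (h' : ℕ) (F : Finset ι) (P : Finset (ι → α)) (J : Finset ι) (y : ι → α) : Prop :=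
  ∀ K ⊆ J, K.Nonempty → ¬ Irr g h' F P K y

/-- The number of irregular tuples is small, for all dense sets. -/
def FewIrr (g : ι → α → α → Bool) (h h' t : ℕ) : Prop :=
  ∀ (a₀ : α) (F : Finset ι) (P : Finset (ι → α)), Dense h Fᶜ P → ∀ K : Finset ι, K.Nonempty → Disjoint K F →
    ∀ T : Finset (ι → α), T ⊆ Rep a₀ K → (∀ y ∈ T, Irr g h' F P K y) → T.card ≤ t ^ K.card

/-- There is a good part for `x` and the letters `y` on `J` (Section 4). -/
def GoodAt (g : ι → α → α → Bool) (h₂ f : ℕ) (a : (ι → α) → ℝ) (C : Finset (ι → α)) (F : Finset ι) (x : ι → α)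
    (J : Finset ι) (y : ι → α) : Prop :=
  ∃ (F' : Finset ι) (A' : Finset (ι → α)), F ⊆ F' ∧ F'.card ≤ f ∧ A' ⊆ C ∧ Dense h₂ F'ᶜ A' ∧
    ∀ x' ∈ A', a x' ≤ a x ∧ (∀ j ∈ F', x' j = x j) ∧ ∀ j ∈ J, g j (x' j) (y j) = g j (x j) (y j)

/-- The points of the cell `C` that are not good for some `J ⊇ K` with at most `k₀` elements and some `y` extending `w`. -/
noncomputable def BadC (g : ι → α → α → Bool) (h₂ f k₀ : ℕ) (a : (ι → α) → ℝ) (C : Finset (ι → α)) (F K : Finset ι)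
    (w : ι → α) : Finset (ι → α) := by
  classical
  exact C.filter (fun x => ∃ (J : Finset ι) (y : ι → α), K ⊆ J ∧ J.card ≤ k₀ ∧ (∀ j ∈ K, y j = w j) ∧
    ¬ GoodAt g h₂ f a C F x J y)

/-- The points that are removed at the lines `0, ..., s-1`. -/
noncomputable def badS (g : ι → α → α → Bool) (h₂ f k₀ : ℕ) (a : ℕ → (ι → α) → ℝ) : ℕ → Finset (ι → α)
  | 0 => ∅
  | s + 1 => by
      classical
      exact badS g h₂ f k₀ a s ∪ univ.filter (fun x => ∃ (J : Finset ι) (y : ι → α), J.card ≤ k₀ ∧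
        ¬ GoodAt g h₂ f (a s) (badS g h₂ f k₀ a s)ᶜ ∅ x J y)

/-- The state of the adversary. -/
def StateD (g : ι → α → α → Bool) (H : Finset ι → (ι → Bool) → Prop) (h f : ℕ) (XA XB : Finset (ι → α))
    (T : (ι → α) → (ι → α) → Prop) : Prop :=
  ∃ (A B : Finset (ι → α)) (IA IB : Finset ι) (v w : ι → α) (ρ : ι → Bool), A ⊆ XA ∧ B ⊆ XB ∧ IA.card ≤ f ∧ IB.card ≤ f ∧
    H (IA ∪ IB) ρ ∧ (∀ x ∈ A, ∀ j ∈ IA, x j = v j) ∧ (∀ y ∈ B, ∀ j ∈ IB, y j = w j) ∧
    (∀ x ∈ A, ∀ y ∈ B, ∀ j ∈ IA ∪ IB, g j (x j) (y j) = ρ j) ∧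
    Dense h IAᶜ A ∧ Dense h IBᶜ B ∧ ∀ x ∈ A, ∀ y ∈ B, T x y

end Pool.Agent.H87.DL
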